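import Pool.Agent.Helper43.Hw.Goals2

/-!
Packet Hw H16a (numbers).
-/

set_option autoImplicit false

namespace Pool.Agent.Helper43.Hw.PkH16a

open Pool.Agent.Helper43.Hw

theorem exists_L (n : ℕ) (hn : 1 ≤ n) : ∃ L : ℕ, 1 ≤ L ∧
    (L : ℝ) ≤ 10 * (1 + Real.log n) ∧ 302 * Real.sqrt n + 2 < (2 : ℝ) ^ L := by
  have hn' : (1 : ℝ) ≤ n := by exact_mod_cast hn
  have hlog : 0 ≤ Real.log n := Real.log_nonneg hn'
  refine ⟨⌊10 * (1 + Real.log n)⌋₊, ?_, Nat.floor_le (by positivity), ?_⟩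
  · rw [Nat.one_le_floor_iff]
    linarith
  · have h1 : 10 * (1 + Real.log n) - 1 < (⌊10 * (1 + Real.log n)⌋₊ : ℝ) := Nat.sub_one_lt_floor _
    have h2 : (2 : ℝ) ^ (9 + 10 * Real.log n) ≤ (2 : ℝ) ^ (⌊10 * (1 + Real.log n)⌋₊ : ℝ) :=
      Real.rpow_le_rpow_of_exponent_le (by norm_num) (by linarith)
    rw [Real.rpow_natCast] at h2
    have h3 : (2 : ℝ) ^ (9 + 10 * Real.log n) = 512 * (2 : ℝ) ^ (10 * Real.log n) := by
      rw [Real.rpow_add (by norm_num)]
      norm_num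
    have h4 : (n : ℝ) ≤ (2 : ℝ) ^ (10 * Real.log n) := by
      rw [Real.rpow_def_of_pos (by norm_num)]
      calc (n : ℝ) = Real.exp (Real.log n) := (Real.exp_log (by linarith)).symm
        _ ≤ _ := Real.exp_le_exp.2 (by nlinarith [Real.log_two_gt_d9])
    have h5 : Real.sqrt n ≤ n := by
      rw [Real.sqrt_le_left (by linarith)]
      nlinarith
    nlinarith

theorem goalH16a : GoalH16a := by
  refine ⟨10 ^ 24, by norm_num, ?_⟩
  intro n m R W hn hm h1 h2 h3 h4 h5 h6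
  have hn' : (1 : ℝ) ≤ n := by exact_mod_cast hn
  have hm' : (1 : ℝ) ≤ m := by exact_mod_cast hm
  have hn0 : (0 : ℝ) < n := by linarith
  have hm0 : (0 : ℝ) < m := by linarith
  obtain ⟨L, hL1, hL2, hL3⟩ := exists_L n hn
  set e : ℝ := 1 + Real.log n with he
  have he1 : 1 ≤ e := by
    have := Real.log_nonneg hn'
    linarith
  set s : ℝ := Real.sqrt n with hs
  have hs2 : s ^ 2 = n := Real.sq_sqrt hn0.le
  have hs0 : 0 < s := Real.sqrt_pos.2 hn0
  set p : ℝ := (m : ℝ) ^ 2 / n * e ^ 3 with hp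
  set q : ℝ := Real.sqrt (m * n) with hq
  have hwin : win n m = p + q := rfl
  have hp0 : 0 < p := by positivity
  have hq0 : 0 < q := Real.sqrt_pos.2 (by positivity)
  have hq2 : q ^ 2 = m * n := Real.sq_sqrt (by positivity)
  have hpn : p * n = m ^ 2 * e ^ 3 := by
    rw [hp]
    field_simp
  rw [hwin] at h1 h5
  -- n is large
  have hnbig : (10 ^ 24 / 3) * e ^ 3 < n := by
    have h7 : 10 ^ 24 * p < 3 * (m : ℝ) ^ 2 := by nlinarith
    have h8 : 10 ^ 24 * (p * n) < 3 * (m : ℝ) ^ 2 * n := by nlinarith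
    rw [hpn] at h8
    have hm2 : (0 : ℝ) < (m : ℝ) ^ 2 := by positivity
    have h9 : (m : ℝ) ^ 2 * (10 ^ 24 * e ^ 3) < (m : ℝ) ^ 2 * (3 * n) := by linarith
    have := lt_of_mul_lt_mul_left h9 hm2.le
    linarith
  have hsbig : 5 * 10 ^ 11 * e < s := by
    have h7 : (5 * 10 ^ 11 * e) ^ 2 < s ^ 2 := by
      rw [hs2]
      have h8 : e ^ 2 ≤ e ^ 3 := by nlinarith [sq_nonneg e]
      nlinarith
    exact lt_of_pow_lt_pow_left₀ 2 hs0.le h7
  have hs11 : 5 * 10 ^ 11 < s := by linarith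
  -- m is large
  have hmbig : (10 ^ 24 / 3 : ℝ) < m := by
    have h7 : 10 ^ 24 * q < 3 * (m : ℝ) ^ 2 := by nlinarith
    have h8 : (10 ^ 24 * q) ^ 2 < (3 * (m : ℝ) ^ 2) ^ 2 :=
      pow_lt_pow_left₀ h7 (by positivity) (by norm_num)
    have h9 : (10 ^ 24) ^ 2 * n < 9 * (m : ℝ) ^ 3 := by
      have h10 : (m : ℝ) * ((10 ^ 24) ^ 2 * n) < m * (9 * (m : ℝ) ^ 3) := by
        calc (m : ℝ) * ((10 ^ 24) ^ 2 * n) = (10 ^ 24 * q) ^ 2 := by rw [mul_pow, hq2]; ring
          _ < (3 * (m : ℝ) ^ 2) ^ 2 := h8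
          _ = m * (9 * (m : ℝ) ^ 3) := by ring
      exact lt_of_mul_lt_mul_left h10 hm0.le
    have h10 : (10 ^ 24 / 3 : ℝ) ≤ n := by
      have : (1 : ℝ) ≤ e ^ 3 := one_le_pow₀ he1
      nlinarith
    have h11 : (10 ^ 24 / 3 : ℝ) ^ 3 < (m : ℝ) ^ 3 := by
      have : (10 ^ 24 : ℝ) ^ 2 * (10 ^ 24 / 3) ≤ (10 ^ 24) ^ 2 * n :=
        mul_le_mul_of_nonneg_left h10 (by positivity)
      nlinarith
    exact lt_of_pow_lt_pow_left₀ 3 hm0.le h11
  -- R
  have hR0 : 0 < R := by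
    rcases Nat.eq_zero_or_pos R with h | h
    · rw [h] at h2
      have : 0 < (m : ℝ) * s := by positivity
      simp at h2
      linarith
    · exact h
  have hR0' : (0 : ℝ) < R := by exact_mod_cast hR0
  -- l
  set l : ℕ := 2 * m ^ 2 / R + 1 with hl
  have hl1 : 2 * m ^ 2 ≤ l * R := by
    have := Nat.lt_div_mul_add (a := 2 * m ^ 2) hR0
    rw [hl, add_mul, one_mul]
    exact this.le
  have hl2 : l * R ≤ 2 * m ^ 2 + R := by
    rw [hl, add_mul, one_mul]
    exact Nat.add_le_add_right (Nat.div_mul_le_self _ _) _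
  have hl3 : l * R ≤ 31 * m ^ 2 := by omega
  have hlpos : 1 ≤ l := Nat.le_add_left _ _
  have hl0 : (0 : ℝ) < l := by exact_mod_cast hlpos
  have hl1' : (1 : ℝ) ≤ l := by exact_mod_cast hlpos
  have hls : (l : ℝ) * s ≤ 62 * m := by
    have h7 : (l : ℝ) * R ≤ 31 * (m : ℝ) ^ 2 := by exact_mod_cast hl3
    have h8 : (l : ℝ) * (m * s) ≤ l * (2 * R) := mul_le_mul_of_nonneg_left h2 hl0.le
    have h9 : (m : ℝ) * (l * s) ≤ m * (62 * m) := by nlinarith
    exact le_of_mul_le_mul_left h9 hm0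
  have hml : (m : ℝ) ≤ 2 * s * l := by
    have h7 : 2 * (m : ℝ) ^ 2 ≤ l * R := by exact_mod_cast hl1
    have h8 : (l : ℝ) * R ≤ l * (4 * m * s) := mul_le_mul_of_nonneg_left h3 hl0.le
    have h9 : (2 * m : ℝ) * m ≤ (2 * m) * (2 * s * l) := by nlinarith
    exact le_of_mul_le_mul_left h9 (by positivity)
  have hLe : (L : ℝ) ≤ 10 * e := hL2
  have hL0 : (1 : ℝ) ≤ L := by exact_mod_cast hL1
  -- m e ≤ win
  have hme : (m : ℝ) * e ≤ p + q := by
    have h7 : ((m : ℝ) * e) ^ 3 ≤ (p + q) ^ 3 := by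
      have h8 : ((m : ℝ) * e) ^ 3 = p * q ^ 2 := by
        rw [hq2]
        calc ((m : ℝ) * e) ^ 3 = m * (m ^ 2 * e ^ 3) := by ring
          _ = m * (p * n) := by rw [hpn]
          _ = p * (m * n) := by ring
      rw [h8]
      have h9 : 0 < p ^ 3 := by positivity
      have h10 : 0 < p ^ 2 * q := by positivity
      have h11 : 0 < p * q ^ 2 := by positivity
      have h12 : 0 < q ^ 3 := by positivity
      nlinarith
    exact le_of_pow_le_pow_left₀ (by norm_num) (by positivity) h7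
  have hlL : 5 * 10 ^ 11 * ((l : ℝ) * L) ≤ 620 * m := by
    have h7 : (l : ℝ) * L ≤ l * (10 * e) := mul_le_mul_of_nonneg_left hLe hl0.le
    have h8 : (l : ℝ) * (5 * 10 ^ 11 * e) ≤ l * s := mul_le_mul_of_nonneg_left hsbig.le hl0.le
    nlinarith
  have hlW : (l : ℝ) * W * s ≤ 186 * m ^ 3 := by
    have hW : (W : ℝ) ≤ 3 * (m : ℝ) ^ 2 := by exact_mod_cast h6
    have h7 : (l : ℝ) * s * W ≤ 62 * m * W := mul_le_mul_of_nonneg_right hls (Nat.cast_nonneg _)
    have h8 : (62 * m : ℝ) * W ≤ 62 * m * (3 * m ^ 2) := mul_le_mul_of_nonneg_left hW (by positivity)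
    nlinarith
  -- the three candidates
  set x₁ : ℝ := 1500000 * l * L with hx₁
  set t : ℝ := Real.sqrt m with ht
  have ht2 : t ^ 2 = m := Real.sq_sqrt hm0.le
  have ht0 : 0 < t := Real.sqrt_pos.2 hm0
  set x₂ : ℝ := 247 * t with hx₂
  set x₃ : ℝ := (48 * l * W : ℝ) ^ ((1 : ℝ) / 3) with hx₃
  have hx₃0 : 0 ≤ x₃ := by positivity
  have hx₃3 : x₃ ^ 3 = 48 * l * W := by
    rw [hx₃, ← Real.rpow_natCast, ← Real.rpow_mul (by positivity)]
    norm_num
  set a : ℝ := max x₁ (max x₂ x₃) with ha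
  have ha1 : x₁ ≤ a := le_max_left _ _
  have ha2 : x₂ ≤ a := (le_max_left _ _).trans (le_max_right _ _)
  have ha3 : x₃ ≤ a := (le_max_right _ _).trans (le_max_right _ _)
  have hx₁1 : 1 ≤ x₁ := by
    rw [hx₁]
    have : (1 : ℝ) ≤ l * L := one_le_mul_of_one_le_of_one_le hl1' hL0
    nlinarith
  have ha0 : 1 ≤ a := hx₁1.trans ha1
  have hcase : a = x₁ ∨ a = x₂ ∨ a = x₃ := by
    rcases max_choice x₁ (max x₂ x₃) with h | h
    · exact Or.inl h
    · rcases max_choice x₂ x₃ with h' | h'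
      · exact Or.inr (Or.inl (h.trans h'))
      · exact Or.inr (Or.inr (h.trans h'))
  set w : ℕ := ⌈a⌉₊ with hw
  have hwa : a ≤ w := Nat.le_ceil a
  have hw2 : (w : ℝ) ≤ 2 * a := by
    have := Nat.ceil_lt_add_one (a := a) (by linarith)
    linarith
  have hw0 : (0 : ℝ) < w := by linarith
  -- the bound for Q
  have hQ : 400 * a * m + 14800 * l * a ^ 2 * L ≤ l * W := by
    rcases hcase with h | h | h
    · -- a = x₁
      have hlL2 : ((l : ℝ) * L) ^ 2 * L * n ≤ 3844 * 1000 * (m ^ 2 * e ^ 3) := by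
        have h7 : ((l : ℝ) * s) ^ 2 ≤ (62 * m) ^ 2 := pow_le_pow_left₀ (by positivity) hls 2
        have h8 : (L : ℝ) ^ 3 ≤ (10 * e) ^ 3 := pow_le_pow_left₀ (by positivity) hLe 3
        calc ((l : ℝ) * L) ^ 2 * L * n = ((l : ℝ) * s) ^ 2 * L ^ 3 := by rw [← hs2]; ring
          _ ≤ (62 * m) ^ 2 * (10 * e) ^ 3 := mul_le_mul h7 h8 (by positivity) (by positivity)
          _ = 3844 * 1000 * (m ^ 2 * e ^ 3) := by ring
      have h9 : ((l : ℝ) * L) ^ 2 * L ≤ 3844 * 1000 * p := by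
        rw [← hpn] at hlL2
        have h10 : ((l : ℝ) * L) ^ 2 * L * n ≤ (3844 * 1000 * p) * n := by linarith
        exact le_of_mul_le_mul_right h10 hn0
      have h10 : (m : ℝ) * L ≤ 10 * (p + q) := by
        have : (m : ℝ) * L ≤ m * (10 * e) := mul_le_mul_of_nonneg_left hLe hm0.le
        linarith
      have h11 : 6 * 10 ^ 8 * ((m : ℝ) * L) + 33300000000000000 * (((l : ℝ) * L) ^ 2 * L) ≤ W := by
        have : 6 * 10 ^ 8 * ((m : ℝ) * L) + 33300000000000000 * (((l : ℝ) * L) ^ 2 * L) ≤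
            10 ^ 24 * (p + q) := by nlinarith
        linarith
      have h12 : 400 * a * m + 14800 * l * a ^ 2 * L =
          l * (6 * 10 ^ 8 * ((m : ℝ) * L) + 33300000000000000 * (((l : ℝ) * L) ^ 2 * L)) := by
        rw [h, hx₁]
        ring
      rw [h12]
      exact mul_le_mul_of_nonneg_left h11 hl0.le
    · -- a = x₂
      have h7 : t * (2 * s) = 2 * q := by
        rw [ht, hs, hq, Real.sqrt_mul hm0.le]
        ring
      have h8 : (m : ℝ) * L ≤ 10 * (p + q) := by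
        have : (m : ℝ) * L ≤ m * (10 * e) := mul_le_mul_of_nonneg_left hLe hm0.le
        linarith
      have h9 : 98800 * t * m ≤ l * (197600 * q) := by
        have h10 : t * m ≤ t * (2 * s * l) := mul_le_mul_of_nonneg_left hml ht0.le
        have h11 : t * (2 * s * l) = 2 * q * l := by rw [← h7]; ring
        rw [h11] at h10
        nlinarith
      have h10 : 400 * a * m + 14800 * l * a ^ 2 * L =
          98800 * t * m + l * (902933200 * (m * L)) := by
        rw [h, hx₂, mul_pow, ht2]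
        ring
      rw [h10]
      have h11 : 197600 * q + 902933200 * ((m : ℝ) * L) ≤ W := by
        have : 197600 * q + 902933200 * ((m : ℝ) * L) ≤ 10 ^ 24 * (p + q) := by nlinarith
        linarith
      have h12 : (l : ℝ) * (197600 * q + 902933200 * ((m : ℝ) * L)) ≤ l * W :=
        mul_le_mul_of_nonneg_left h11 hl0.le
      nlinarith
    · -- a = x₃
      have h7 : 61009 * (m : ℝ) ≤ a ^ 2 := by
        have h8 : x₂ ^ 2 ≤ a ^ 2 := pow_le_pow_left₀ (by positivity) ha2 2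
        rw [hx₂, mul_pow, ht2] at h8
        linarith
      have h8 : a ^ 3 = 48 * l * W := by rw [h, hx₃3]
      have ha00 : 0 ≤ a := by linarith
      have h9 : 400 * a * m ≤ a ^ 3 / 96 := by
        have h10 : a * (61009 * (m : ℝ)) ≤ a * a ^ 2 := mul_le_mul_of_nonneg_left h7 ha00
        have h11 : 0 ≤ a * (m : ℝ) := by positivity
        nlinarith
      have h10 : 14800 * l * a ^ 2 * L ≤ a ^ 3 / 96 := by
        have h11 : a ^ 2 * x₁ ≤ a ^ 2 * a := mul_le_mul_of_nonneg_left ha1 (by positivity)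
        rw [hx₁] at h11
        have h12 : 0 ≤ a ^ 2 * (l * L : ℝ) := by positivity
        nlinarith
      linarith
  have h4a : 4 * a < m := by
    have hx1m : 4 * x₁ < m := by
      rw [hx₁]
      nlinarith
    have hx2m : 4 * x₂ < m := by
      have h7 : 988 < t := by
        have h8 : (988 : ℝ) ^ 2 < t ^ 2 := by
          rw [ht2]
          linarith
        exact lt_of_pow_lt_pow_left₀ 2 ht0.le h8
      rw [hx₂]
      nlinarith
    have hx3m : 4 * x₃ < m := by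
      have h7 : (4 * x₃) ^ 3 < (m : ℝ) ^ 3 := by
        rw [mul_pow, hx₃3]
        have hm3 : (0 : ℝ) < (m : ℝ) ^ 3 := by positivity
        have h8 : (s : ℝ) * (4 ^ 3 * (48 * l * W)) < s * m ^ 3 := by
          have h9 : (s : ℝ) * (4 ^ 3 * (48 * l * W)) = 3072 * (l * W * s) := by ring
          rw [h9]
          have h10 : 3072 * ((l : ℝ) * W * s) ≤ 3072 * (186 * m ^ 3) :=
            mul_le_mul_of_nonneg_left hlW (by norm_num)
          have h11 : 5 * 10 ^ 11 * (m : ℝ) ^ 3 ≤ s * m ^ 3 :=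
            mul_le_mul_of_nonneg_right hs11.le hm3.le
          nlinarith
        exact lt_of_mul_lt_mul_left h8 hs0.le
      exact lt_of_pow_lt_pow_left₀ 3 hm0.le h7
    rcases hcase with h | h | h
    · rw [h]; exact hx1m
    · rw [h]; exact hx2m
    · rw [h]; exact hx3m
  refine ⟨l, L, w, hlpos, hl1, ?_, ?_, ?_, ?_, ?_, ?_, ?_, ?_⟩
  · omega
  · have h7 : (100 * m : ℝ) ≤ R := by nlinarith
    exact_mod_cast h7
  · have h7 : (151 * m + 2 * l : ℝ) < 2 ^ L * l := by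
      have h8 : (302 * s + 2) * l < (2 : ℝ) ^ L * l := mul_lt_mul_of_pos_right hL3 hl0
      nlinarith
    exact_mod_cast h7
  · have h7 : (1500000 * l * L : ℝ) ≤ w := ha1.trans hwa
    exact_mod_cast h7
  · have h7 : (61000 * m : ℝ) ≤ (w : ℝ) ^ 2 := by
      have h8 : x₂ ^ 2 ≤ (w : ℝ) ^ 2 := pow_le_pow_left₀ (by positivity) (ha2.trans hwa) 2
      rw [hx₂, mul_pow, ht2] at h8
      linarith
    exact_mod_cast h7
  · have h7 : (2 * w : ℝ) < m := by linarith
    exact_mod_cast h7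
  · have h7 : (48 * l * W : ℝ) ≤ (w : ℝ) ^ 3 := by
      rw [← hx₃3]
      exact pow_le_pow_left₀ hx₃0 (ha3.trans hwa) 3
    exact_mod_cast h7
  · have h7 : (w * (200 * m + 3700 * l * w * L) : ℝ) ≤ l * W := by
      refine le_trans ?_ hQ
      have h8 : (200 * m + 3700 * l * w * L : ℝ) ≤ 200 * m + 3700 * l * (2 * a) * L := by
        have : (3700 * l * w * L : ℝ) ≤ 3700 * l * (2 * a) * L := by gcongr
        linarith
      calc (w * (200 * m + 3700 * l * w * L) : ℝ) ≤ (2 * a) * (200 * m + 3700 * l * (2 * a) * L) :=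
            mul_le_mul hw2 h8 (by positivity) (by linarith)
        _ = 400 * a * m + 14800 * l * a ^ 2 * L := by ring
    exact_mod_cast h7

end Pool.Agent.Helper43.Hw.PkH16a
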